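import Pool.Agent.Lib_helper54.LinRam.Fin

/-!
Linear 3-graphs on `k` vertices whose Ramsey numbers against cliques are at least
`2 ^ ((log n) ^ (c k / log k))`.
-/

namespace Pool.Agent.Results.MP_8bbaaf_co.LinearLowerBound

open Finset Pool.Agent.LinRam54

/-- `F` is a linear 3-graph on the vertex set `Fin k`: all edges have three vertices and two
different edges share at most one vertex. -/
def IsLinear3 {k : ℕ} (F : Finset (Finset (Fin k))) : Prop :=
  (∀ e ∈ F, e.card = 3) ∧ ∀ e ∈ F, ∀ f ∈ F, e ≠ f → (e ∩ f).card ≤ 1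

/-- `Arrows F n N`: for every red/blue colouring of the triples of an `N`-set there is a red copy
of `F` or a blue complete 3-graph on `n` vertices (`red e` says that the triple `e` is red). -/
def Arrows {k : ℕ} (F : Finset (Finset (Fin k))) (n N : ℕ) : Prop :=
  ∀ red : Finset (Fin N) → Prop,
    (∃ φ : Fin k ↪ Fin N, ∀ e ∈ F, red (e.map φ)) ∨
      (∃ S : Finset (Fin N), S.card = n ∧ ∀ e ⊆ S, e.card = 3 → ¬ red e)

theorem lin_le_pow (C : ℕ) : ∃ b₀ : ℕ, ∀ b ≥ b₀, C * (b + 1) ≤ 2 ^ b := by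
  refine ⟨2 * C + 8, ?_⟩
  intro b hb
  induction b, hb using Nat.le_induction with
  | base =>
    have h1 : C + 1 ≤ 2 ^ C := Nat.lt_two_pow_self
    have h2 : 2 ^ (2 * C + 8) = 256 * (2 ^ C * 2 ^ C) := by
      rw [pow_add, two_mul, pow_add]
      ring
    rw [h2]
    have h3 : (C + 1) * (C + 1) ≤ 2 ^ C * 2 ^ C := Nat.mul_le_mul h1 h1
    nlinarith
  | succ b _ ih =>
    rw [pow_succ]
    nlinarith

/-- The colouring of the triples of a set of at most `2 ^ (4 ^ (b e))` points. -/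
theorem lower (k L E e b : ℕ) (hk : 0 < k) (hE : 1 ≤ E) (hL : k < 2 ^ L)
    (hbig : 2 ^ 60 * (E * L) ≤ k) (F : Finset (Finset (Fin k)))
    (hF : Good k (2 * E * k) (96 * k * (L * k + k + 2))
      (96 * k * (L * k + k + 2 * L * (2 * E * k + 1) + 2)) (k / 2 ^ 14) F)
    (he : 2 * e + 1 ≤ E) (hbe : 1 ≤ b * e) (hb1 : 4 * b * e + 3 ≤ 2 ^ b)
    (hb2 : 4 * ((k + 1) * 2 ^ (k * k)) ≤ 2 ^ b) (n N : ℕ) (hn : 2 ^ (2 * (b * e) * 4 ^ b) ≤ n)
    (hN : N ≤ 2 ^ (4 ^ (b * e))) : ¬ Arrows F n N := by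
  intro harr
  obtain ⟨T, hT2, hTs, hTi⟩ := exists_gamma k E e b he hb1 hb2
  have hm : 0 < 4 ^ (b * e) := by positivity
  have h2m : 2 ≤ 4 ^ (b * e) := by
    calc 2 ≤ 4 ^ 1 := by norm_num
      _ ≤ 4 ^ (b * e) := Nat.pow_le_pow_right (by norm_num) hbe
  have hcount := indep_count (4 ^ (b * e)) (4 ^ b) h2m T hT2 hTi
  have hpow : (4 ^ (b * e)) ^ (4 ^ b) = 2 ^ (2 * (b * e) * 4 ^ b) := by
    rw [show (4 : ℕ) = 2 ^ 2 by norm_num, ← pow_mul, ← pow_mul, ← pow_mul]
    congr 1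
    ring
  rw [hpow] at hcount
  obtain ⟨ι⟩ : Nonempty (Fin N ↪ (Fin (4 ^ (b * e)) → Bool)) := by
    apply Function.Embedding.nonempty_of_card_le
    simp only [Fintype.card_fin, Fintype.card_fun, Fintype.card_bool]
    exact hN
  rcases harr (fun t => RedS (AdjT T) (t.map ι)) with ⟨φ, hφ⟩ | ⟨S, hSc, hS⟩
  · refine no_red k L E hk hE hL hbig F hF (4 ^ (b * e)) hm T hTs (fun v => ι (φ v))
      (fun u v h => φ.injective (ι.injective h)) ?_
    intro t ht
    have h1 := hφ t ht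
    have h2 : t.image (fun v => ι (φ v)) = (t.map φ).map ι := by
      ext w
      simp only [Finset.mem_image, Finset.mem_map]
      constructor
      · rintro ⟨v, hv, rfl⟩
        exact ⟨φ v, ⟨v, hv, rfl⟩, rfl⟩
      · rintro ⟨u, ⟨v, hv, rfl⟩, rfl⟩
        exact ⟨v, hv, rfl⟩
    rw [h2]
    exact h1
  · have h1 := blue_card (AdjT T) (fun i h => h.1 rfl) (fun i j h => adjT_symm T i j h) (S.map ι) (by
      intro t ht ht3
      rw [Finset.subset_map_iff] at ht
      obtain ⟨u, hu, rfl⟩ := ht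
      rw [Finset.card_map] at ht3
      exact hS u hu ht3)
    rw [Finset.card_map, hSc] at h1
    omega

/-- There are a constant `c > 0` and, for every large `k`, a linear 3-graph `F` on `k` vertices
with `log₂ r(F, K_n) > (log₂ n) ^ (c k / log₂ k)` for all large `n`. -/
theorem result : ∃ c : ℝ, 0 < c ∧ ∃ k₀ : ℕ, ∀ k ≥ k₀, ∃ F : Finset (Finset (Fin k)),
    IsLinear3 F ∧ ∃ n₀ : ℕ, ∀ n ≥ n₀, ∀ N : ℕ, Arrows F n N →
      (2 : ℝ) ^ ((Real.logb 2 n) ^ (c * k / Real.logb 2 k)) < N := by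
  refine ⟨1 / 2 ^ 64, by positivity, 2 ^ 80, ?_⟩
  intro k hk80
  have hk : 0 < k := lt_of_lt_of_le (by positivity) hk80
  set L := Nat.log 2 k + 1 with hLdef
  have hL : k < 2 ^ L := Nat.lt_pow_succ_log_self (by norm_num) k
  have hL2 : 2 ^ (L - 1) ≤ k := by
    rw [hLdef, Nat.add_sub_cancel]
    exact Nat.pow_log_le_self 2 (by omega)
  have hL81 : 81 ≤ L := by
    have : 80 ≤ Nat.log 2 k := (Nat.le_log_iff_pow_le (by norm_num) (by omega)).2 hk80
    omega
  have hkL : 2 ^ 63 * L ≤ k := by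
    refine le_trans ?_ hL2
    have h1 : L - 1 = 63 + (L - 64) := by omega
    rw [h1, pow_add]
    apply Nat.mul_le_mul_left
    have h2 : L - 64 = (L - 65) + 1 := by omega
    rw [h2, pow_succ]
    have h3 : L - 65 < 2 ^ (L - 65) := Nat.lt_two_pow_self
    have h4 : 2 ^ 16 ≤ 2 ^ (L - 65) := Nat.pow_le_pow_right (by norm_num) (by omega)
    omega
  set E := k / (2 ^ 60 * L) with hEdef
  have hLpos : 0 < 2 ^ 60 * L := by positivity
  have hE8 : 8 ≤ E := by
    rw [hEdef, Nat.le_div_iff_mul_le hLpos]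
    have h1 : 8 * (2 ^ 60 * L) = 2 ^ 63 * L := by ring
    rw [h1]
    exact hkL
  have hbig : 2 ^ 60 * (E * L) ≤ k := by
    have h1 : E * (2 ^ 60 * L) ≤ k := Nat.div_mul_le_self _ _
    have h2 : 2 ^ 60 * (E * L) = E * (2 ^ 60 * L) := by ring
    rw [h2]
    exact h1
  obtain ⟨F, hF⟩ := exists_good k L E hk (by omega) hL hbig
  refine ⟨F, ⟨hF.card3, hF.lin⟩, ?_⟩
  set e := (E - 1) / 2 with hedef
  have he : 2 * e + 1 ≤ E := by omega
  have he1 : 1 ≤ e := by omega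
  -- threshold for b
  obtain ⟨b₁, hb₁⟩ := lin_le_pow (8 * e)
  set b₀ := max b₁ (k * k + k + 2) with hb₀
  refine ⟨2 ^ (2 * (b₀ * e) * 4 ^ b₀), ?_⟩
  intro n hn N harr
  -- choose b
  obtain ⟨b, hb, hnb, hnb'⟩ : ∃ b ≥ b₀, 2 ^ (2 * (b * e) * 4 ^ b) ≤ n ∧
      n < 2 ^ (2 * ((b + 1) * e) * 4 ^ (b + 1)) := by
    by_contra hcon
    push Not at hcon
    have hall : ∀ b ≥ b₀, 2 ^ (2 * (b * e) * 4 ^ b) ≤ n := by
      intro b hb
      induction b, hb using Nat.le_induction with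
      | base => exact hn
      | succ b hb ih => exact hcon b hb ih
    have h1 := hall (max b₀ n) (le_max_left _ _)
    have h2 : max b₀ n < 2 ^ (2 * (max b₀ n * e) * 4 ^ (max b₀ n)) := by
      refine lt_of_lt_of_le Nat.lt_two_pow_self (Nat.pow_le_pow_right (by norm_num) ?_)
      have h3 : 1 ≤ 4 ^ (max b₀ n) := Nat.one_le_pow _ _ (by norm_num)
      calc max b₀ n = 1 * (max b₀ n * 1) * 1 := by ring
        _ ≤ 2 * (max b₀ n * e) * 4 ^ (max b₀ n) := by
            apply Nat.mul_le_mul _ h3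
            apply Nat.mul_le_mul (by norm_num)
            exact Nat.mul_le_mul_left _ he1
    have h4 : n ≤ max b₀ n := le_max_right _ _
    omega
  have hbb1 : b₁ ≤ b := le_trans (le_max_left _ _) hb
  have hbk : k * k + k + 2 ≤ b := le_trans (le_max_right _ _) hb
  have hb8 := hb₁ b hbb1
  have hb1 : 4 * b * e + 3 ≤ 2 ^ b := by nlinarith
  have hb2 : 4 * ((k + 1) * 2 ^ (k * k)) ≤ 2 ^ b := by
    have h1 : k + 1 ≤ 2 ^ k := Nat.lt_two_pow_self
    calc 4 * ((k + 1) * 2 ^ (k * k)) ≤ 4 * (2 ^ k * 2 ^ (k * k)) :=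
          Nat.mul_le_mul_left _ (Nat.mul_le_mul_right _ h1)
      _ = 2 ^ (k * k + k + 2) := by
          rw [pow_add, pow_add]
          ring
      _ ≤ 2 ^ b := Nat.pow_le_pow_right (by norm_num) hbk
  have hbe : 1 ≤ b * e := Nat.one_le_iff_ne_zero.2 (by
    intro h
    rcases Nat.mul_eq_zero.1 h with h | h <;> omega)
  have hN : 2 ^ (4 ^ (b * e)) < N := by
    by_contra h
    push Not at h
    exact lower k L E e b hk (by omega) hL hbig F hF he hbe hb1 hb2 n N hnb h harr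
  -- real estimates
  have hn2 : 2 ≤ n := by
    refine le_trans ?_ hnb
    calc 2 = 2 ^ 1 := by norm_num
      _ ≤ 2 ^ (2 * (b * e) * 4 ^ b) := by
          apply Nat.pow_le_pow_right (by norm_num)
          have h3 : 1 ≤ 4 ^ b := Nat.one_le_pow _ _ (by norm_num)
          nlinarith
  have hlog1 : 1 ≤ Real.logb 2 n := by
    rw [Real.le_logb_iff_rpow_le (by norm_num) (by positivity)]
    rw [Real.rpow_one]
    exact_mod_cast hn2
  have hlog2 : Real.logb 2 n ≤ (16 : ℝ) ^ b := by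
    have h1 : Real.logb 2 n ≤ ((2 * ((b + 1) * e) * 4 ^ (b + 1) : ℕ) : ℝ) := by
      rw [Real.logb_le_iff_le_rpow (by norm_num) (by positivity), Real.rpow_natCast]
      exact_mod_cast hnb'.le
    refine h1.trans ?_
    have h2 : 2 * ((b + 1) * e) * 4 ^ (b + 1) ≤ 16 ^ b := by
      have h3 : 8 * e * (b + 1) ≤ 4 ^ b := hb8.trans (Nat.pow_le_pow_left (by norm_num) b)
      calc 2 * ((b + 1) * e) * 4 ^ (b + 1) = (8 * e * (b + 1)) * 4 ^ b := by
            rw [pow_succ]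
            ring
        _ ≤ 4 ^ b * 4 ^ b := Nat.mul_le_mul_right _ h3
        _ = 16 ^ b := by
            rw [← mul_pow]
            norm_num
    exact_mod_cast h2
  have hlogk : 0 < Real.logb 2 k := by
    apply Real.logb_pos (by norm_num)
    have : 1 < k := by omega
    exact_mod_cast this
  have hexp : 1 / 2 ^ 64 * (k : ℝ) / Real.logb 2 k ≤ (e : ℝ) / 2 := by
    -- L ≤ 2 log k
    have h1 : (L : ℝ) ≤ 2 * Real.logb 2 k := by
      have h2 : ((L - 1 : ℕ) : ℝ) ≤ Real.logb 2 k := by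
        rw [Real.le_logb_iff_rpow_le (by norm_num) (by exact_mod_cast hk), Real.rpow_natCast]
        exact_mod_cast hL2
      have h3 : ((L - 1 : ℕ) : ℝ) = (L : ℝ) - 1 := by
        rw [Nat.cast_sub (by omega)]
        norm_num
      rw [h3] at h2
      have h4 : (81 : ℝ) ≤ L := by exact_mod_cast hL81
      linarith
    have hLR : (0 : ℝ) < L := by
      have h4 : (81 : ℝ) ≤ L := by exact_mod_cast hL81
      linarith
    have h5 : (k : ℝ) < ((E : ℝ) + 1) * (2 ^ 60 * L) := by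
      have := Nat.lt_mul_div_succ k hLpos
      rw [← hEdef] at this
      have h6 : k < (E + 1) * (2 ^ 60 * L) := by
        rw [mul_comm]
        exact this
      exact_mod_cast h6
    have h6 : (E : ℝ) ≤ 2 * e + 2 := by
      have : E ≤ 2 * e + 2 := by omega
      exact_mod_cast this
    have h7 : (8 : ℝ) ≤ E := by exact_mod_cast hE8
    have h8 : (E : ℝ) + 1 ≤ 8 * (e / 2) := by linarith
    rw [div_le_iff₀ hlogk]
    have h9 : (k : ℝ) ≤ 8 * (e / 2) * (2 ^ 60 * (2 * Real.logb 2 k)) := by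
      have h10 : ((E : ℝ) + 1) * (2 ^ 60 * L) ≤ 8 * (e / 2) * (2 ^ 60 * (2 * Real.logb 2 k)) := by
        apply mul_le_mul h8 _ (by positivity) (by positivity)
        exact mul_le_mul_of_nonneg_left h1 (by positivity)
      linarith
    calc 1 / 2 ^ 64 * (k : ℝ) ≤ 1 / 2 ^ 64 * (8 * (e / 2) * (2 ^ 60 * (2 * Real.logb 2 k))) :=
          mul_le_mul_of_nonneg_left h9 (by positivity)
      _ = (e : ℝ) / 2 * Real.logb 2 k := by ring
  have hfin : (Real.logb 2 n) ^ (1 / 2 ^ 64 * (k : ℝ) / Real.logb 2 k) ≤ ((4 ^ (b * e) : ℕ) : ℝ) := by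
    calc (Real.logb 2 n) ^ (1 / 2 ^ 64 * (k : ℝ) / Real.logb 2 k)
        ≤ (Real.logb 2 n) ^ ((e : ℝ) / 2) := Real.rpow_le_rpow_of_exponent_le hlog1 hexp
      _ ≤ ((16 : ℝ) ^ b) ^ ((e : ℝ) / 2) :=
          Real.rpow_le_rpow (by linarith) hlog2 (by positivity)
      _ = ((4 ^ (b * e) : ℕ) : ℝ) := by
          have h1 : (16 : ℝ) ^ b = ((4 : ℝ) ^ b) ^ (2 : ℝ) := by
            rw [Real.rpow_two, ← pow_mul, mul_comm b 2, pow_mul]
            norm_num
          rw [h1, ← Real.rpow_mul (by positivity)]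
          have h2 : (2 : ℝ) * ((e : ℝ) / 2) = (e : ℕ) := by
            ring
          rw [h2, Real.rpow_natCast, ← pow_mul]
          push_cast
          rfl
  calc (2 : ℝ) ^ ((Real.logb 2 n) ^ (1 / 2 ^ 64 * (k : ℝ) / Real.logb 2 k))
      ≤ (2 : ℝ) ^ (((4 ^ (b * e) : ℕ) : ℝ)) := Real.rpow_le_rpow_of_exponent_le (by norm_num) hfin
    _ = ((2 ^ (4 ^ (b * e)) : ℕ) : ℝ) := by
        rw [Real.rpow_natCast]
        push_cast
        rfl
    _ < N := by exact_mod_cast hN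

end Pool.Agent.Results.MP_8bbaaf_co.LinearLowerBound
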