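import Pool.Agent.DXR.Fin3
import Pool.Agent.DXR.One
import Pool.Agent.DXR.Step
import Pool.Agent.DXR.Super
import Pool.Agent.DXR.Sub
import Pool.Agent.DXR.Quot

/-!
Ramsey numbers of linear 3-graphs against cliques: the exponent `(s + 1) / 3` for every linear
3-graph on `s` vertices.
-/

namespace Pool.Agent.Results.MP_8bbaaf_co.LinearThirdUpper

open Finset

/-- `F` is a linear 3-graph on the vertex set `Fin k`: all edges have three vertices and two
different edges share at most one vertex. -/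
def IsLinear3 {k : ℕ} (F : Finset (Finset (Fin k))) : Prop :=
  (∀ e ∈ F, e.card = 3) ∧ ∀ e ∈ F, ∀ f ∈ F, e ≠ f → (e ∩ f).card ≤ 1

/-- `Arrows F n N`: for every red/blue colouring of the triples of an `N`-set there is a red copy
of `F` or a blue complete 3-graph on `n` vertices (`red e` says that the triple `e` is red). -/
def Arrows {k : ℕ} (F : Finset (Finset (Fin k))) (n N : ℕ) : Prop :=
  ∀ red : Finset (Fin N) → Prop,
    (∃ φ : Fin k ↪ Fin N, ∀ e ∈ F, red (e.map φ)) ∨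
      (∃ S : Finset (Fin N), S.card = n ∧ ∀ e ⊆ S, e.card = 3 → ¬ red e)

/-- `log₂ r(F, K_n) = O_F(n ^ ⌊(s + 1) / 3⌋)` for linear 3-graphs `F` on `s` vertices. -/
theorem result (s : ℕ) (hs : 2 ≤ s) (F : Finset (Finset (Fin s))) (hF : IsLinear3 F) :
    ∃ C : ℕ, ∀ n : ℕ, 1 ≤ n → ∃ N ≤ 2 ^ (C * n ^ ((s + 1) / 3)), Arrows F n N :=
  DXR.Fin3.third_final (DXR.SUB_thm DXR.SUPER_thm (DXR.STEP_thm DXR.ONE_thm)) DXR.QUOT_thm s hs F
    hF.1 hF.2

end Pool.Agent.Results.MP_8bbaaf_co.LinearThirdUpper
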