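import Pool.Agent.DXR.Fin4
import Pool.Agent.DXR.One
import Pool.Agent.DXR.Step
import Pool.Agent.DXR.Super
import Pool.Agent.DXR.Sub
import Pool.Agent.DXR.PG
import Pool.Agent.DXR.Tree
import Pool.Agent.DXR.Dbl

/-!
Ramsey numbers of 3-graphs against cliques: lexicographic products with, and doublings of, a
3-graph change the logarithm of the Ramsey number only by a polylogarithmic factor, and all
3-graphs with a labelling over the field with two elements (the subgraphs of blow-ups of binary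
projective spaces, for instance the Fano plane) have quasipolynomial Ramsey numbers.
-/

namespace Pool.Agent.Results.MP_8bbaaf_co.QuasiPolyClass

open Finset DXR

/-- `r(F, K_n) ≤ r(F₀, K_n) ^ (K (log₂ n) ^ K)` for every `F` in the class generated by `F₀`. For
`F₀` a single vertex this is `log₂ r(F, K_n) ≤ K (log₂ n) ^ K`. -/
theorem result (k₀ : ℕ) (F₀ : Finset (Finset (Fin k₀))) (hF₀ : ∀ e ∈ F₀, e.card = 3) (k : ℕ)
    (F : Finset (Finset (Fin k))) (hF : Gen F₀ k F) :
    ∃ K : ℕ, ∀ n ≥ 2, ∀ N ≥ 2, Arrows F₀ n N →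
      ∃ N' ≤ N ^ (K * Nat.log 2 n ^ K), Arrows F n N' := by
  have hStep := DXR.STEP_thm DXR.ONE_thm
  have hSub := DXR.SUB_thm DXR.SUPER_thm hStep
  have hDbl := DXR.DBL_thm DXR.TREE_thm DXR.SUPER_thm hStep
  exact DXR.Fin4.gen_final hSub hDbl (DXR.PG_thm hSub hDbl) F₀ hF₀ F hF

end Pool.Agent.Results.MP_8bbaaf_co.QuasiPolyClass
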