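import Pool.Agent.Lib_helper54.LinUp.Main

/-!
Upper bounds for Ramsey numbers of 3-graphs against cliques: the exponent of `n` is at most
`|A| + (2 d + 1) ^ 2` if every vertex outside `A` lies in at most `d` edges disjoint from `A`
(the edges meeting `A` are arbitrary).
-/

namespace Pool.Agent.Results.MP_8bbaaf_co.SmallDegreeOffSetUpper

open Finset Pool.Agent.LinUp54

/-- `Arrows F n N`: for every red/blue colouring of the triples of an `N`-set there is a red copy
of `F` or a blue complete 3-graph on `n` vertices (`red e` says that the triple `e` is red). -/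
def Arrows {k : ℕ} (F : Finset (Finset (Fin k))) (n N : ℕ) : Prop :=
  ∀ red : Finset (Fin N) → Prop,
    (∃ φ : Fin k ↪ Fin N, ∀ e ∈ F, red (e.map φ)) ∨
      (∃ S : Finset (Fin N), S.card = n ∧ ∀ e ⊆ S, e.card = 3 → ¬ red e)

/-- The exponent `|A| + (2 d + 1) ^ 2`. -/
theorem result (s : ℕ) (F : Finset (Finset (Fin s))) (hF : ∀ e ∈ F, e.card = 3)
    (A : Finset (Fin s)) (d : ℕ)
    (hdeg : ∀ v, v ∉ A → (F.filter (fun e => v ∈ e ∧ Disjoint e A)).card ≤ d) :
    ∃ C : ℕ, ∀ n : ℕ, 1 ≤ n →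
      ∃ N ≤ 2 ^ (C * n ^ (A.card + (2 * d + 1) ^ 2)), Arrows F n N :=
  upper_general s F hF A d hdeg

end Pool.Agent.Results.MP_8bbaaf_co.SmallDegreeOffSetUpper
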